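import Pool.Agent.Work.MP_8f87b2_h3.InJ2
import Pool.Agent.Work.MP_8f87b2_h68.JI
import Pool.Agent.Work.MP_8f87b2_h40.TyJ5
import Pool.Agent.Work.MP_8f87b2_h40.TyNM
import Pool.Agent.Work.MP_8f87b2_h40.TyJY
import Pool.Agent.Work.MP_8f87b2_h40.H2e

/-!
# MP_8f87b2_co: rows I-J3-x, the inner words of the gadgets J5, NM, JY (and of all groups TyH)

`OneC F`: every member of `F` without a part 1 has contents `{s} + replicate a 2`. `TyH.innJ`: every inner word of a group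
of a one soliton class is `InJ`; so the rows L, K, K', Cr, Cl, A0, B0 of helper3 hold. `TyH.nis`, `TyH.njs`: helper68's
shapes, so the rows against all words with `Q = nil` hold.
-/

set_option autoImplicit false

namespace Pool.OddHC

open Finset Equiv BinaryTree Pool.Agent.Work.MP_8f87b2_co

variable {k : ℕ} {F F' : Set (Cyc k)} {g g' : DG k}

/-- the members without a part 1 are one soliton classes -/
def J.OneC (F : Set (Cyc k)) : Prop :=
  ∀ c ∈ F, (contc c).count 1 = 0 → ∃ s a, 3 ≤ s ∧ contc c = {s} + Multiset.replicate a 2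

open J SRun

theorem J.OneF.oneC (h : OneF F) : OneC F := fun c hc _ => h c hc

/-- the content of `R` -/
theorem J.Sh.one_of {p t u : ℕ} {D D' : BinaryTree Unit} (h : Sh k p D t D' u) {c : Cyc k}
    (hs : OneC F) (hc : c ∈ F) (e : contc c = OddHC.cont (RR p D t) + {2}) :
    ∃ s a, 3 ≤ s ∧ OddHC.cont (RR p D t) = {s} + Multiset.replicate a 2 := by
  have h0 : (contc c).count 1 = 0 := by
    rw [e, Multiset.count_add, h.one]
    rfl
  obtain ⟨s, a, hs1, hc'⟩ := hs c hc h0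
  rw [e] at hc'
  obtain ⟨a, ha⟩ := sub_two hs1 hc'
  exact ⟨s, a, hs1, ha⟩

theorem TyJM.innJC (h : TyJM F g) (hs : OneC F) : ∀ p ∈ g.arcs, ∀ w ∈ innA p, InJ k w.1 := by
  obtain ⟨p, D, t, D', u, w0, h1, hp, rfl, rfl⟩ := h
  obtain ⟨s, a, hs1, ha⟩ := h1.one_of hs (c := cyc (jM p D t D' u w0 0)) (Or.inl rfl)
    (by rw [contc_cyc]; exact h1.cont0M w0)
  intro q hq w hw
  have hp' : q = (jM p D t D' u w0 11, jM p D t D' u w0 1) ∨
      q = (jM p D t D' u w0 12, jM p D t D' u w0 3) ∨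
      q = (jM p D t D' u w0 15, jM p D t D' u w0 6) ∨
      q = (jM p D t D' u w0 14, jM p D t D' u w0 8) := hq
  rcases hp' with rfl | rfl | rfl | rfl
  · obtain rfl : w = TT (jM p D t D' u w0 11) := hw
    exact h1.innM hs1 ha w0 (i := 1) (by simp) (by simp)
  · obtain rfl : w = TT (jM p D t D' u w0 12) := hw
    exact h1.innM hs1 ha w0 (i := 3) (by simp) (by simp)
  · obtain rfl : w = TT (jM p D t D' u w0 15) := hw
    exact h1.innM hs1 ha w0 (i := 6) (by simp) (by simp)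
  · obtain rfl : w = TT (jM p D t D' u w0 14) := hw
    exact h1.innM hs1 ha w0 (i := 8) (by simp) (by simp)

theorem TyJ5.innJ (h : TyJ5 F g) (hs : OneC F) : ∀ p ∈ g.arcs, ∀ w ∈ innA p, InJ k w.1 := by
  obtain ⟨p, D, D', u, w0, h1, hp, rfl, rfl⟩ := h
  obtain ⟨s, a, hs1, ha⟩ := h1.one_of hs (c := cyc (jX p D 0 D' u w0 0)) ⟨0, by decide, rfl⟩
    (by rw [contc_cyc]; exact h1.cont0 w0)
  intro q hq w hw
  have hp' : q = (jX p D 0 D' u w0 8, jX p D 0 D' u w0 14) := hq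
  subst hp'
  obtain rfl : w = TT (jX p D 0 D' u w0 8) := hw
  exact h1.innX hs1 ha w0 (by simp)

theorem TyNM.innJ (h : TyNM F g) (hs : OneC F) : ∀ p ∈ g.arcs, ∀ w ∈ innA p, InJ k w.1 := by
  obtain ⟨p, D, t, D', u, w0, h1, hp, rfl, rfl⟩ := h
  obtain ⟨s, a, hs1, ha⟩ := h1.one_of hs (c := cyc (jM p D t D' u w0 0)) (Or.inl rfl)
    (by rw [contc_cyc]; exact h1.cont0M w0)
  intro q hq w hw
  have hp' : q = (jM p D t D' u w0 12, jM p D t D' u w0 3) ∨
      q = (jM p D t D' u w0 15, jM p D t D' u w0 6) ∨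
      q = (jM p D t D' u w0 14, jM p D t D' u w0 8) := hq
  rcases hp' with rfl | rfl | rfl
  · obtain rfl : w = TT (jM p D t D' u w0 12) := hw
    exact h1.innM hs1 ha w0 (i := 3) (by simp) (by simp)
  · obtain rfl : w = TT (jM p D t D' u w0 15) := hw
    exact h1.innM hs1 ha w0 (i := 6) (by simp) (by simp)
  · obtain rfl : w = TT (jM p D t D' u w0 14) := hw
    exact h1.innM hs1 ha w0 (i := 8) (by simp) (by simp)

theorem TyJY.innJ (h : TyJY F g) (hs : OneC F) : ∀ p ∈ g.arcs, ∀ w ∈ innA p, InJ k w.1 := by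
  obtain ⟨p, D, t, D', u, w0, h1, hp, rfl, rfl⟩ := h
  obtain ⟨s, a, hs1, ha⟩ := h1.one_of hs (c := cyc (jM p D t D' u w0 0)) ⟨0, by decide, rfl⟩
    (by rw [contc_cyc]; exact h1.cont0M w0)
  intro q hq w hw
  obtain ⟨r, hr, rfl⟩ := mem_gadOf_arcs.1 hq
  simp only [arJ2Y, List.mem_cons, List.not_mem_nil, or_false] at hr
  rcases hr with rfl | rfl | rfl
  · obtain rfl : w = TT (jM p D t D' u w0 12) := hw
    exact h1.innM hs1 ha w0 (i := 3) (by simp) (by simp)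
  · obtain rfl : w = TT (jM p D t D' u w0 15) := hw
    exact h1.innM hs1 ha w0 (i := 6) (by simp) (by simp)
  · obtain rfl : w = TT (jM p D t D' u w0 14) := hw
    exact h1.innM hs1 ha w0 (i := 8) (by simp) (by simp)

/-! ### helper68's shapes -/

theorem TyJ5.nis (h : TyJ5 F g) : ∀ p ∈ g.arcs, ∀ w ∈ innA p, NIS w := by
  obtain ⟨p, D, D', u, w0, h1, hp, rfl, rfl⟩ := h
  intro q hq w hw
  have hp' : q = (jX p D 0 D' u w0 8, jX p D 0 D' u w0 14) := hq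
  subst hp'
  obtain rfl : w = TT (jX p D 0 D' u w0 8) := hw
  have h3 : 3 ≤ OddHC.ht (RR p D 0) := by
    rw [ht_RR h1.gD]
    have := h1.gD.ht
    omega
  exact NIS.of_W (RR_ne p D 0) h1.one h3 (by simp) (h1.word w0 (by norm_num))

/-- the mirrored inner words -/
theorem J.Sh.nisM {p t u : ℕ} {D D' : BinaryTree Unit} (h : Sh k p D t D' u) (w0 : X k) {i j : ℕ}
    (hij : (i, j) ∈ [(0, 10), (1, 11), (3, 12), (6, 15), (8, 14), (9, 17)]) (hi : i ∈ [1, 3, 6, 8]) :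
    NIS (TT (jM p D t D' u w0 j)) := by
  have h3 : 3 ≤ OddHC.ht (RR p D t) := by
    rw [ht_RR h.gD]
    have := h.gD.ht
    omega
  have hi' : i < 20 := by
    simp only [List.mem_cons, List.not_mem_nil, or_false] at hi
    omega
  exact NIS.of_mW (RR_ne p D t) h.one h3 hi (h.word w0 hi') (h.link w0 hij)

theorem TyNM.nis (h : TyNM F g) : ∀ p ∈ g.arcs, ∀ w ∈ innA p, NIS w := by
  obtain ⟨p, D, t, D', u, w0, h1, hp, rfl, rfl⟩ := h
  intro q hq w hw
  have hp' : q = (jM p D t D' u w0 12, jM p D t D' u w0 3) ∨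
      q = (jM p D t D' u w0 15, jM p D t D' u w0 6) ∨
      q = (jM p D t D' u w0 14, jM p D t D' u w0 8) := hq
  rcases hp' with rfl | rfl | rfl
  · obtain rfl : w = TT (jM p D t D' u w0 12) := hw
    exact h1.nisM w0 (i := 3) (by simp) (by simp)
  · obtain rfl : w = TT (jM p D t D' u w0 15) := hw
    exact h1.nisM w0 (i := 6) (by simp) (by simp)
  · obtain rfl : w = TT (jM p D t D' u w0 14) := hw
    exact h1.nisM w0 (i := 8) (by simp) (by simp)

theorem TyJY.nis (h : TyJY F g) : ∀ p ∈ g.arcs, ∀ w ∈ innA p, NIS w := by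
  obtain ⟨p, D, t, D', u, w0, h1, hp, rfl, rfl⟩ := h
  intro q hq w hw
  obtain ⟨r, hr, rfl⟩ := mem_gadOf_arcs.1 hq
  simp only [arJ2Y, List.mem_cons, List.not_mem_nil, or_false] at hr
  rcases hr with rfl | rfl | rfl
  · obtain rfl : w = TT (jM p D t D' u w0 12) := hw
    exact h1.nisM w0 (i := 3) (by simp) (by simp)
  · obtain rfl : w = TT (jM p D t D' u w0 15) := hw
    exact h1.nisM w0 (i := 6) (by simp) (by simp)
  · obtain rfl : w = TT (jM p D t D' u w0 14) := hw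
    exact h1.nisM w0 (i := 8) (by simp) (by simp)

/-- contents of `S` -/
theorem J.Sh.oneS0 {p t u : ℕ} {D D' : BinaryTree Unit} (h : Sh k p D t D' u) :
    (OddHC.cont (RR 0 D' u)).count 1 = 0 := by
  have h1 := h.one
  rw [← h.cont, Multiset.count_add, count_b2, zero_add] at h1
  exact h1

theorem J.Sh.njsX {p t u : ℕ} {D D' : BinaryTree Unit} (h : Sh k p D t D' u) (w0 : X k) {i : ℕ}
    (hi : i < 20) : NJS (jX p D t D' u w0 i) :=
  NJS.of_W (RR_ne p D t) (RR_ne 0 D' u) h.one (count_b2 t) h.oneS0 hi (Or.inl (h.word w0 hi))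

theorem J.Sh.njsM {p t u : ℕ} {D D' : BinaryTree Unit} (h : Sh k p D t D' u) (w0 : X k) {i : ℕ}
    (hi : i < 20) : NJS (jM p D t D' u w0 i) :=
  NJS.of_W (RR_ne p D t) (RR_ne 0 D' u) h.one (count_b2 t) h.oneS0 hi (Or.inr (h.wordM w0 hi))

theorem TyJ5.njs (h : TyJ5 F g) : ∀ w ∈ g.B, NJS w := by
  obtain ⟨p, D, D', u, w0, h1, hp, rfl, rfl⟩ := h
  intro w hw
  have hix : ∀ i ∈ ixJ5, i < 20 := by decide
  obtain ⟨i, hi, rfl⟩ := mem_gadJ5_B.1 hw
  exact h1.njsX w0 (hix i hi)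

theorem TyNM.njs (h : TyNM F g) : ∀ w ∈ g.B, NJS w := by
  obtain ⟨p, D, t, D', u, w0, h1, hp, rfl, rfl⟩ := h
  intro w hw
  have hix : ∀ i ∈ ixJN, i < 20 := by decide
  obtain ⟨i, hi, rfl⟩ := mem_gadJNM_B.1 hw
  exact h1.njsM w0 (hix i hi)

theorem TyJY.njs (h : TyJY F g) : ∀ w ∈ g.B, NJS w := by
  obtain ⟨p, D, t, D', u, w0, h1, hp, rfl, rfl⟩ := h
  intro w hw
  have hix : ∀ i ∈ ixJ2Y, i < 20 := by decide
  obtain ⟨i, hi, rfl⟩ := mem_gadOf_B.1 hw
  exact h1.njsM w0 (hix i hi)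

/-! ### All groups of the one soliton classes -/

namespace Hole2

/-- **I-J3-J3, I-J3-JM, I-JM-J3, I-JM-JM** -/
theorem TyH.nis (h : TyH F g) : ∀ p ∈ g.arcs, ∀ w ∈ innA p, NIS w := by
  rcases h.cases with h | h | h | h
  · exact h.nis
  · exact h.nis
  · exact h.nis
  · exact h.nis

theorem TyH.njs (h : TyH F g) : ∀ w ∈ g.B, NJS w := by
  rcases h.cases with h | h | h | h
  · exact h.njs
  · exact h.njs
  · exact h.njs
  · exact h.njs

theorem TyH.inner_H (h : TyH F g) (h' : TyH F' g') : ∀ p ∈ g.arcs, ∀ w ∈ innA p, w ∉ g'.B :=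
  fun p hp w hw => (h.nis p hp w hw).not_mem h'.njs

theorem TyH.oneC (h : TyH F g) : OneC F := by
  obtain ⟨n, a, hn, ha, hk, h1⟩ := h.cls
  intro c hc h0
  rcases h1 c hc with h2 | ⟨f, hf, h2, -, -⟩
  · exact ⟨n + 2, a, by omega, h2⟩
  · exfalso
    have hk' : n + 4 + 2 * ∑ x, f x = k := by omega
    rcases h2 with rfl | rfl
    · rw [count_Yc hn hk'] at h0
      omega
    · rw [count_Zc hn hk'] at h0
      omega

theorem TyH.innJ (h : TyH F g) : ∀ p ∈ g.arcs, ∀ w ∈ innA p, InJ k w.1 := by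
  have hs := h.oneC
  rcases h.cases with h | h | h | h
  · exact h.innJC hs
  · exact h.innJ hs
  · exact h.innJ hs
  · exact h.innJ hs

/-- **L** -/
theorem TyH.inner_L (h : TyH F g) (h' : TyL F' g') : ∀ p ∈ g.arcs, ∀ w ∈ innA p, w ∉ g'.B :=
  fun p hp w hw => (h.innJ p hp w hw).not_L h'

/-- **K** -/
theorem TyH.inner_K {S : BinaryTree Unit} (h : TyH F g) (h' : Pool.OddHC.TyK S F' g') (hS : 2 ≤ J.h3c S) :
    ∀ p ∈ g.arcs, ∀ w ∈ innA p, w ∉ g'.B :=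
  fun p hp w hw => (h.innJ p hp w hw).not_K h' hS

/-- **K'** -/
theorem TyH.inner_K' {S : BinaryTree Unit} (h : TyH F g) (h' : TyK' S F' g') (hS : 2 ≤ J.h3c S) :
    ∀ p ∈ g.arcs, ∀ w ∈ innA p, w ∉ g'.B :=
  fun p hp w hw => (h.innJ p hp w hw).not_K' h' hS

/-- **C**, right, any `c ≥ 2` -/
theorem TyH.inner_C {c : ℕ} {R : BinaryTree Unit} (h : TyH F g) (h' : TyC c R F' g')
    (hc : 2 ≤ c) (hR : 3 ≤ OddHC.ht R) (h2 : c = 2 → 1 ∉ OddHC.cont R ∨ ¬ J.nn R) :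
    ∀ p ∈ g.arcs, ∀ w ∈ innA p, w ∉ g'.B :=
  fun p hp w hw => (h.innJ p hp w hw).not_C h' hc hR h2

/-- **C'**, left, any `c ≥ 2` -/
theorem TyH.inner_C' {c : ℕ} {R : BinaryTree Unit} (h : TyH F g) (h' : TyC' c R F' g')
    (hc : 2 ≤ c) (hR : 3 ≤ OddHC.ht R) (h2 : c = 2 → 1 ∉ OddHC.cont R ∨ ¬ J.nn R) :
    ∀ p ∈ g.arcs, ∀ w ∈ innA p, w ∉ g'.B :=
  fun p hp w hw => (h.innJ p hp w hw).not_Cl h' hc hR h2

/-- **Cr** (`c` odd, no condition) -/
theorem TyH.inner_Cr (h : TyH F g) (h' : TyCr F' g') : ∀ p ∈ g.arcs, ∀ w ∈ innA p, w ∉ g'.B := by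
  obtain ⟨c, R, hc, hR, ho, h1⟩ := h'
  refine h.inner_C h1 hc (by omega) ?_
  rintro rfl
  exact absurd ho (by decide)

/-- **A0** -/
theorem TyH.inner_A0 (h : TyH F g) (h' : TyA0 F' g') : ∀ p ∈ g.arcs, ∀ w ∈ innA p, w ∉ g'.B :=
  fun p hp w hw => (h.innJ p hp w hw).not_A0 h'

theorem TyH.inner_B0 (h : TyH F g) (h' : TyB0 F' g') : ∀ p ∈ g.arcs, ∀ w ∈ innA p, w ∉ g'.B :=
  fun p hp w hw => (h.innJ p hp w hw).not_B0 h'

end Hole2

end Pool.OddHC
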