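import Pool.Agent.Work.MP_8f87b2_h3.InJ3
import Pool.Agent.Work.MP_8f87b2_h3.InJ4
import Pool.Agent.Work.MP_8f87b2_h57.J3Rows

/-!
# MP_8f87b2_co: rows I-J3-A, I-J3-T, all groups TyH
-/

set_option autoImplicit false

namespace Pool.OddHC

open Finset Equiv BinaryTree Pool.Agent.Work.MP_8f87b2_co

variable {k : ℕ} {F F' : Set (Cyc k)} {g g' : DG k}

namespace Hole2

/-- **T** -/
theorem TyH.inner_T (h : TyH F g) (h' : TyT F' g') : ∀ p ∈ g.arcs, ∀ w ∈ innA p, w ∉ g'.B :=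
  fun p hp w hw => (h.innJ p hp w hw).not_T h'

/-- **A** -/
theorem TyH.inner_A (h : TyH F g) (h' : TyA F' g') (hk : 10 ≤ k) :
    ∀ p ∈ g.arcs, ∀ w ∈ innA p, w ∉ g'.B :=
  fun p hp w hw => (h.innJ p hp w hw).not_A h' (Or.inl hk)

end Hole2

end Pool.OddHC
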