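import Pool.Agent.Work.MP_8f87b2_h3.InJ5
import Pool.Agent.Work.MP_8f87b2_h57.J3Rows2

/-!
# MP_8f87b2_co: row I-J3-E, all groups TyH: the hit E pairs are of the class `(s, 2^a, 1, 1)` and far
-/

set_option autoImplicit false

namespace Pool.OddHC

open Finset Equiv BinaryTree Pool.Agent.Work.MP_8f87b2_co

variable {k : ℕ} {F F' : Set (Cyc k)} {g g' : DG k}

open J

/-- the data of a gadget over one soliton: `n` is the same for all inner words -/
def J.InnN (k : ℕ) (F : Set (Cyc k)) (g : DG k) : Prop :=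
  ∀ c ∈ F, ∀ n a, (contc c).count 1 = 0 → 1 ≤ n → contc c = {n + 2} + Multiset.replicate a 2 →
    ∀ p ∈ g.arcs, ∀ w ∈ innA p, InnJ k n w.1 ∨ InnJ k n (Tsq.mir w.1)

/-- the content of `R`, with the members of the class -/
theorem J.two_sub {M : Multiset ℕ} {n a : ℕ} (hn : 1 ≤ n) (h : M + {2} = {n + 2} + Multiset.replicate a 2) :
    ∃ b, M = {n + 2} + Multiset.replicate b 2 := sub_two (by omega) h

theorem TyJM.innN (h : TyJM F g) : InnN k F g := by
  obtain ⟨p, D, t, D', u, w0, h1, hp, rfl, rfl⟩ := h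
  intro c hc n a _ hn hc2 q hq w hw
  have e1 : contc c = OddHC.cont (RR p D t) + {2} := by
    rcases hc with rfl | rfl
    · exact h1.cont0M w0
    · exact h1.cont4M w0
  obtain ⟨b, ha⟩ := two_sub hn (e1.symm.trans hc2)
  have hp' : q = (jM p D t D' u w0 11, jM p D t D' u w0 1) ∨
      q = (jM p D t D' u w0 12, jM p D t D' u w0 3) ∨
      q = (jM p D t D' u w0 15, jM p D t D' u w0 6) ∨
      q = (jM p D t D' u w0 14, jM p D t D' u w0 8) := hq
  rcases hp' with rfl | rfl | rfl | rfl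
  · obtain rfl : w = TT (jM p D t D' u w0 11) := hw
    exact Or.inl (h1.innM_n hn ha w0 (i := 1) (by simp) (by simp))
  · obtain rfl : w = TT (jM p D t D' u w0 12) := hw
    exact Or.inl (h1.innM_n hn ha w0 (i := 3) (by simp) (by simp))
  · obtain rfl : w = TT (jM p D t D' u w0 15) := hw
    exact Or.inl (h1.innM_n hn ha w0 (i := 6) (by simp) (by simp))
  · obtain rfl : w = TT (jM p D t D' u w0 14) := hw
    exact Or.inl (h1.innM_n hn ha w0 (i := 8) (by simp) (by simp))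

/-- a member without a part 1 has the content of word 0 -/
theorem J.Sh.cl0 {p t u : ℕ} {D D' : BinaryTree Unit} (h : Sh k p D t D' u) (w0 : X k) {i : ℕ}
    (hi : i ∈ [0, 1, 2, 4]) (h0 : (OddHC.cont (jX p D t D' u w0 i).1).count 1 = 0) :
    OddHC.cont (jX p D t D' u w0 i).1 = OddHC.cont (RR p D t) + {2} := by
  simp only [List.mem_cons, List.not_mem_nil, or_false] at hi
  rcases hi with rfl | rfl | rfl | rfl
  · exact h.cont0 w0
  · have := h.count12 w0 1 (by simp)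
    omega
  · have := h.count12 w0 2 (by simp)
    omega
  · exact h.cont4 w0

theorem TyJ5.innN (h : TyJ5 F g) : InnN k F g := by
  obtain ⟨p, D, D', u, w0, h1, hp, rfl, rfl⟩ := h
  intro c hc n a h0 hn hc2 q hq w hw
  have e1 : contc c = OddHC.cont (RR p D 0) + {2} := by
    obtain ⟨i, hi, rfl⟩ := hc
    rw [contc_cyc] at h0 ⊢
    simp only [nwJ5, List.mem_cons, List.not_mem_nil, or_false] at hi
    rcases hi with rfl | rfl | rfl | rfl | rfl
    · exact h1.cont0 w0
    · exact h1.cont4 w0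
    · exact h1.cont13 w0
    · exact h1.cl0 w0 (by simp) h0
    · exact h1.cl0 w0 (by simp) h0
  obtain ⟨b, ha⟩ := two_sub hn (e1.symm.trans hc2)
  have hp' : q = (jX p D 0 D' u w0 8, jX p D 0 D' u w0 14) := hq
  subst hp'
  obtain rfl : w = TT (jX p D 0 D' u w0 8) := hw
  exact Or.inr (h1.innX_n hn ha w0 (by simp))

theorem TyNM.innN (h : TyNM F g) : InnN k F g := by
  obtain ⟨p, D, t, D', u, w0, h1, hp, rfl, rfl⟩ := h
  intro c hc n a h0 hn hc2 q hq w hw
  have e1 : contc c = OddHC.cont (RR p D t) + {2} := by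
    rcases hc with rfl | rfl | rfl
    · exact h1.cont0M w0
    · rw [contc_cyc, h1.contM] at h0 ⊢
      exact h1.cl0 w0 (by simp) h0
    · rw [contc_cyc, h1.contM] at h0 ⊢
      exact h1.cl0 w0 (by simp) h0
  obtain ⟨b, ha⟩ := two_sub hn (e1.symm.trans hc2)
  have hp' : q = (jM p D t D' u w0 12, jM p D t D' u w0 3) ∨
      q = (jM p D t D' u w0 15, jM p D t D' u w0 6) ∨
      q = (jM p D t D' u w0 14, jM p D t D' u w0 8) := hq
  rcases hp' with rfl | rfl | rfl
  · obtain rfl : w = TT (jM p D t D' u w0 12) := hw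
    exact Or.inl (h1.innM_n hn ha w0 (i := 3) (by simp) (by simp))
  · obtain rfl : w = TT (jM p D t D' u w0 15) := hw
    exact Or.inl (h1.innM_n hn ha w0 (i := 6) (by simp) (by simp))
  · obtain rfl : w = TT (jM p D t D' u w0 14) := hw
    exact Or.inl (h1.innM_n hn ha w0 (i := 8) (by simp) (by simp))

theorem TyJY.innN (h : TyJY F g) : InnN k F g := by
  obtain ⟨p, D, t, D', u, w0, h1, hp, rfl, rfl⟩ := h
  intro c hc n a h0 hn hc2 q hq w hw
  have e1 : contc c = OddHC.cont (RR p D t) + {2} := by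
    obtain ⟨i, hi, rfl⟩ := hc
    rw [contc_cyc, h1.contM] at h0 ⊢
    exact h1.cl0 w0 (by simp at hi ⊢; omega) h0
  obtain ⟨b, ha⟩ := two_sub hn (e1.symm.trans hc2)
  obtain ⟨r, hr, rfl⟩ := mem_gadOf_arcs.1 hq
  simp only [arJ2Y, List.mem_cons, List.not_mem_nil, or_false] at hr
  rcases hr with rfl | rfl | rfl
  · obtain rfl : w = TT (jM p D t D' u w0 12) := hw
    exact Or.inl (h1.innM_n hn ha w0 (i := 3) (by simp) (by simp))
  · obtain rfl : w = TT (jM p D t D' u w0 15) := hw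
    exact Or.inl (h1.innM_n hn ha w0 (i := 6) (by simp) (by simp))
  · obtain rfl : w = TT (jM p D t D' u w0 14) := hw
    exact Or.inl (h1.innM_n hn ha w0 (i := 8) (by simp) (by simp))

/-- every group has a member without a part 1 -/
theorem J.has0 (h : TyJM F g ∨ TyJY F g ∨ TyJ5 F g ∨ TyNM F g) : ∃ c ∈ F, (contc c).count 1 = 0 := by
  rcases h with h | h | h | h
  · obtain ⟨p, D, t, D', u, w0, h1, hp, rfl, rfl⟩ := h
    refine ⟨_, Or.inl rfl, ?_⟩
    rw [contc_cyc, h1.cont0M, Multiset.count_add, h1.one]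
    rfl
  · obtain ⟨p, D, t, D', u, w0, h1, hp, rfl, rfl⟩ := h
    refine ⟨_, ⟨0, by simp, rfl⟩, ?_⟩
    rw [contc_cyc, h1.cont0M, Multiset.count_add, h1.one]
    rfl
  · obtain ⟨p, D, D', u, w0, h1, hp, rfl, rfl⟩ := h
    refine ⟨_, ⟨0, by decide, rfl⟩, ?_⟩
    rw [contc_cyc, h1.cont0, Multiset.count_add, h1.one]
    rfl
  · obtain ⟨p, D, t, D', u, w0, h1, hp, rfl, rfl⟩ := h
    refine ⟨_, Or.inl rfl, ?_⟩
    rw [contc_cyc, h1.cont0M, Multiset.count_add, h1.one]
    rfl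

namespace Hole2

/-- the inner words with the height -/
theorem TyH.innJ_n (h : TyH F g) : ∃ n, 1 ≤ n ∧ (∀ c ∈ F, htc c = n + 2) ∧
    ∀ p ∈ g.arcs, ∀ w ∈ innA p, InnJ k n w.1 ∨ InnJ k n (Tsq.mir w.1) := by
  have hN : InnN k F g := by
    rcases h.cases with h | h | h | h
    · exact h.innN
    · exact h.innN
    · exact h.innN
    · exact h.innN
  obtain ⟨c, hc, h0⟩ := J.has0 h.cases
  obtain ⟨s, a, hs, hc2⟩ := h.oneC c hc h0
  obtain ⟨n, rfl⟩ : ∃ n, s = n + 2 := ⟨s - 2, by omega⟩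
  refine ⟨n, by omega, ?_, hN c hc n a h0 (by omega) hc2⟩
  intro d hd
  rw [h.htp d hd c hc]
  unfold htc
  rw [hc2, Multiset.sup_add, Multiset.sup_singleton]
  apply sup_eq_left.2
  apply Multiset.sup_le.2
  intro b hb
  rw [Multiset.eq_of_mem_replicate hb]
  omega

/-- **I-J3-E, I-JM-E**: a hit E pair is lower, or it has the contents `(s, 2^a, 1, 1)`, `s` the height of the group, and
for `s ≥ 4` its T-cycles are far -/
theorem TyH.E_hit (h : TyH F g) (h' : TyE F' g') {p : X k × X k} (hp : p ∈ g.arcs) {w : X k}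
    (hw : w ∈ innA p) (hw' : w ∈ g'.B) : ∀ c ∈ F', ∀ d ∈ F,
    (htc c + 1 = htc d ∨ ∃ a, contc c = {htc d} + (Multiset.replicate a 2 + {1} + {1})) ∧
      (4 ≤ htc d → H1.FarC c) := by
  obtain ⟨n, hn, hF, hI⟩ := h.innJ_n
  have h1 := hI p hp w hw
  intro c hc d hd
  rw [hF d hd]
  constructor
  · obtain ⟨b, h2 | h2⟩ := InnJ.E_cont h1 h' hw'
    · left
      unfold htc
      rw [h2 c hc, Multiset.sup_add, Multiset.sup_singleton]
      have h3 : (Multiset.replicate b 2 + ({1} + {1}) + {1} : Multiset ℕ).sup ≤ 2 := by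
        apply Multiset.sup_le.2
        intro x hx
        have := le_top (n := 0) (a := b) ({1} + {1} + {1}) (by simp) x (by rwa [← add_assoc])
        omega
      rw [sup_eq_left.2 (by omega)]
    · exact Or.inr ⟨b, h2 c hc⟩
  · intro h4
    exact InnJ.far h1 (by omega) h' hw' c hc

/-- **I-J3-E**: early E groups -/
theorem TyH.inner_E (h : TyH F g) (h' : TyE F' g') (hle : ∀ d ∈ F, ∀ c ∈ F', htc d ≤ htc c)
    (h4 : ∀ d ∈ F, 4 ≤ htc d)
    (he : (∃ c ∈ F', ¬ H1.FarC c) ∨ ∃ c ∈ F', ∀ d ∈ F, ∀ a,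
      contc c ≠ {htc d} + (Multiset.replicate a 2 + {1} + {1})) :
    ∀ p ∈ g.arcs, ∀ w ∈ innA p, w ∉ g'.B := by
  intro p hp w hw hw'
  obtain ⟨d, hd⟩ := h.ne
  rcases he with ⟨c, hc, h1⟩ | ⟨c, hc, h1⟩
  · exact h1 ((h.E_hit h' hp hw hw' c hc d hd).2 (h4 d hd))
  · rcases (h.E_hit h' hp hw hw' c hc d hd).1 with h2 | ⟨a, h2⟩
    · have := hle d hd c hc
      omega
    · exact h1 d hd a h2

end Hole2

end Pool.OddHC
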