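import Pool.Agent.Work.MP_8f87b2_h3.InJ6
import Pool.Agent.Work.MP_8f87b2_h57.J3E

/-!
# MP_8f87b2_co: the gadget J5 at height 3 meets no E pair (`k ≥ 6`)
-/

set_option autoImplicit false

namespace Pool.OddHC

open Finset Equiv BinaryTree Pool.Agent.Work.MP_8f87b2_co

variable {k : ℕ} {F F' : Set (Cyc k)} {g g' : DG k}

open J

/-- `T(w_8)` of a right gadget over `Φ`, `Φ (-1) = 0`, is not prime -/
theorem J.three_not_prime (Φ : ZMod (2 * 1 + 1) → ℕ) {x : X k} (hx : x.1 = pw (Ring1.RF 1 Φ) 8)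
    (h1 : Φ (-1) = 0) (hk : 6 ≤ k) (Y : BinaryTree Unit) : (TT x).1 ≠ Y △ .nil := by
  intro e
  obtain ⟨D, hD, e0⟩ := RF_shape (n := 1) (le_refl 1) Φ
  have h3 : 2 ≤ Tsq.ht (Ring1.RF 1 Φ) := by
    rw [e0, H1.ht_eq, ht_RR hD]
    have := hD.ht
    omega
  have h4 : (Ring1.wa (k := 1 + 2 + 2 * ∑ x, Φ x) (le_refl 1) Φ rfl).1 = Ring1.RF 1 Φ :=
    Ring1.wa_val (le_refl 1) Φ rfl
  obtain ⟨G, hG⟩ : ∃ G : ZMod (2 * 1 + 1) → ℕ, G = rf (fun z : ZMod (2 * 1 + 1) => Φ (z + ((1 : ℕ) : ZMod (2 * 1 + 1)))) := ⟨_, rfl⟩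
  have h5 : Tsq.mir (TT x).1 = fm (Ring1.RF 1 G) (Zt 8) := by
    rw [hG, mir_TT_pw (r := Ring1.wa (k := 1 + 2 + 2 * ∑ x, Φ x) (le_refl 1) Φ rfl) (i := 8) (by simp)
      (by rw [h4]; exact h3) (by rw [h4]; exact hx), Ring1.TT_wa, Ring1.wa_val, mir_RF]
  obtain ⟨E, hE, h6⟩ := shape_fm (n := 1) (le_refl 1) G 8
  rw [e, mir_one, h6] at h5
  obtain ⟨h7, h8, _⟩ := RR_single h5
  have h9 : ∑ z, Φ z = 0 := by
    have g0 : G 0 = Φ 0 := by
      rw [hG]
      exact congrArg Φ (by decide)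
    have g2 : G (-1) = Φ 1 := by
      rw [hG]
      exact congrArg Φ (by decide)
    have : ∀ f : ZMod (2 * 1 + 1) → ℕ, ∑ z, f z = f 0 + f 1 + f (-1) := by
      intro f
      exact Fin.sum_univ_three f
    rw [this, h1, ← g0, ← g2, h7, h8]
  have h10 : x.1.numNodes = k := X_num x
  rw [hx] at h10
  have h11 : (pw (Ring1.RF 1 Φ) 8).numNodes = (Ring1.RF 1 Φ).numNodes + 2 := by
    have hn : ∀ A C : BinaryTree Unit, (A △ C).numNodes = A.numNodes + C.numNodes + 1 := fun _ _ => rfl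
    change (app (.nil : BinaryTree Unit) (.nil △ (Ring1.RF 1 Φ △ .nil))).numNodes = _
    rw [app, hn, hn]
    simp [BinaryTree.numNodes]
  rw [h11, Ring1.RF_num (le_refl 1), h9] at h10
  omega

/-- **J5 at height 3 against E** -/
theorem TyJ5.inner_E3 (h : TyJ5 F g) {c : Cyc k} (hc : c ∈ F) {a : ℕ}
    (hc3 : contc c = {3} + Multiset.replicate a 2) (hk : 6 ≤ k) (h' : TyE F' g') :
    ∀ p ∈ g.arcs, ∀ w ∈ innA p, w ∉ g'.B := by
  have hI : ∀ p ∈ g.arcs, ∀ w ∈ innA p, InnJ k 1 w.1 ∨ InnJ k 1 (Tsq.mir w.1) := by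
    intro p hp w hw
    refine h.innN c hc 1 a ?_ (le_refl 1) hc3 p hp w hw
    rw [hc3, Multiset.count_add, Multiset.count_replicate]
    rfl
  have hI0 := hI
  obtain ⟨p, D, D', u, w0, h1, hp, rfl, rfl⟩ := h
  intro q hq w hw hw'
  have hin : InJ k w.1 := ⟨1, hI0 q hq w hw⟩
  have hp' : q = (jX p D 0 D' u w0 8, jX p D 0 D' u w0 14) := hq
  subst hp'
  obtain rfl : w = TT (jX p D 0 D' u w0 8) := hw
  obtain ⟨j, r, f, hj, hr, ht⟩ := h'
  have e1 : contc c = OddHC.cont (RR p D 0) + {2} := by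
    obtain ⟨i, hi, rfl⟩ := hc
    have h0 : (contc (cyc (jX p D 0 D' u w0 i))).count 1 = 0 := by
      rw [hc3, Multiset.count_add, Multiset.count_replicate]
      rfl
    rw [contc_cyc] at h0 ⊢
    simp only [nwJ5, List.mem_cons, List.not_mem_nil, or_false] at hi
    rcases hi with rfl | rfl | rfl | rfl | rfl
    · exact h1.cont0 w0
    · exact h1.cont4 w0
    · exact h1.cont13 w0
    · exact h1.cl0 w0 (by simp) h0
    · exact h1.cl0 w0 (by simp) h0
  obtain ⟨b, hb⟩ := two_sub (n := 1) (le_refl 1) (e1.symm.trans hc3)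
  obtain ⟨Φ, _, e⟩ := Ring1.exists_RF (n := 1) (le_refl 1) hb
  have hΦ : Φ (-1) = 0 := by
    obtain ⟨D2, hD2, e2⟩ := RF_shape (n := 1) (le_refl 1) Φ
    have := RR_inj h1.gD hD2 (e.trans e2)
    exact this.2.2.symm
  rcases ht.words _ hw' with e3 | ⟨_, e3 | e3⟩
  · refine three_not_prime Φ (x := jX p D 0 D' u w0 8) ?_ hΦ hk _ e3
    rw [← e]
    exact h1.word_lo w0 (by norm_num)
  · rw [e3] at hin
    exact hin.no_N nil_mem_app
  · rw [e3] at hin
    exact hin.no_N nil_mem_cons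

/-- the inner words of the mirrored gadgets -/
def J.InnM (k : ℕ) (F : Set (Cyc k)) (g : DG k) : Prop :=
  ∀ c ∈ F, ∀ n a, (contc c).count 1 = 0 → 1 ≤ n → contc c = {n + 2} + Multiset.replicate a 2 →
    ∀ p ∈ g.arcs, ∀ w ∈ innA p, InnJ k n w.1

theorem TyJM.innM (h : TyJM F g) : InnM k F g := by
  obtain ⟨p, D, t, D', u, w0, h1, hp, rfl, rfl⟩ := h
  intro c hc n a _ hn hc2 q hq w hw
  have e1 : contc c = OddHC.cont (RR p D t) + {2} := by
    rcases hc with rfl | rfl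
    · exact h1.cont0M w0
    · exact h1.cont4M w0
  obtain ⟨b, ha⟩ := two_sub hn (e1.symm.trans hc2)
  have hp' : q = (jM p D t D' u w0 11, jM p D t D' u w0 1) ∨
      q = (jM p D t D' u w0 12, jM p D t D' u w0 3) ∨
      q = (jM p D t D' u w0 15, jM p D t D' u w0 6) ∨
      q = (jM p D t D' u w0 14, jM p D t D' u w0 8) := hq
  rcases hp' with rfl | rfl | rfl | rfl
  · obtain rfl : w = TT (jM p D t D' u w0 11) := hw
    exact h1.innM_n hn ha w0 (i := 1) (by simp) (by simp)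
  · obtain rfl : w = TT (jM p D t D' u w0 12) := hw
    exact h1.innM_n hn ha w0 (i := 3) (by simp) (by simp)
  · obtain rfl : w = TT (jM p D t D' u w0 15) := hw
    exact h1.innM_n hn ha w0 (i := 6) (by simp) (by simp)
  · obtain rfl : w = TT (jM p D t D' u w0 14) := hw
    exact h1.innM_n hn ha w0 (i := 8) (by simp) (by simp)

theorem TyNM.innM (h : TyNM F g) : InnM k F g := by
  obtain ⟨p, D, t, D', u, w0, h1, hp, rfl, rfl⟩ := h
  intro c hc n a h0 hn hc2 q hq w hw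
  have e1 : contc c = OddHC.cont (RR p D t) + {2} := by
    rcases hc with rfl | rfl | rfl
    · exact h1.cont0M w0
    · rw [contc_cyc, h1.contM] at h0 ⊢
      exact h1.cl0 w0 (by simp) h0
    · rw [contc_cyc, h1.contM] at h0 ⊢
      exact h1.cl0 w0 (by simp) h0
  obtain ⟨b, ha⟩ := two_sub hn (e1.symm.trans hc2)
  have hp' : q = (jM p D t D' u w0 12, jM p D t D' u w0 3) ∨
      q = (jM p D t D' u w0 15, jM p D t D' u w0 6) ∨
      q = (jM p D t D' u w0 14, jM p D t D' u w0 8) := hq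
  rcases hp' with rfl | rfl | rfl
  · obtain rfl : w = TT (jM p D t D' u w0 12) := hw
    exact h1.innM_n hn ha w0 (i := 3) (by simp) (by simp)
  · obtain rfl : w = TT (jM p D t D' u w0 15) := hw
    exact h1.innM_n hn ha w0 (i := 6) (by simp) (by simp)
  · obtain rfl : w = TT (jM p D t D' u w0 14) := hw
    exact h1.innM_n hn ha w0 (i := 8) (by simp) (by simp)

theorem TyJY.innM (h : TyJY F g) : InnM k F g := by
  obtain ⟨p, D, t, D', u, w0, h1, hp, rfl, rfl⟩ := h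
  intro c hc n a h0 hn hc2 q hq w hw
  have e1 : contc c = OddHC.cont (RR p D t) + {2} := by
    obtain ⟨i, hi, rfl⟩ := hc
    rw [contc_cyc, h1.contM] at h0 ⊢
    exact h1.cl0 w0 (by simp at hi ⊢; omega) h0
  obtain ⟨b, ha⟩ := two_sub hn (e1.symm.trans hc2)
  obtain ⟨r, hr, rfl⟩ := mem_gadOf_arcs.1 hq
  simp only [arJ2Y, List.mem_cons, List.not_mem_nil, or_false] at hr
  rcases hr with rfl | rfl | rfl
  · obtain rfl : w = TT (jM p D t D' u w0 12) := hw
    exact h1.innM_n hn ha w0 (i := 3) (by simp) (by simp)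
  · obtain rfl : w = TT (jM p D t D' u w0 15) := hw
    exact h1.innM_n hn ha w0 (i := 6) (by simp) (by simp)
  · obtain rfl : w = TT (jM p D t D' u w0 14) := hw
    exact h1.innM_n hn ha w0 (i := 8) (by simp) (by simp)

namespace Hole2

/-- **I-J3-E, I-JM-E, all heights**: no inner word of a group of HOLE 2 is a word of an E triple which is not lower, except
E pairs of contents `(s, 2^a, 1, 1)`, `s ≥ 4` the height of the group, with far T-cycles -/
theorem TyH.inner_E' (h : TyH F g) (hk : 6 ≤ k) (h' : TyE F' g') (hle : ∀ d ∈ F, ∀ c ∈ F', htc d ≤ htc c)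
    (he : (∀ d ∈ F, htc d = 3) ∨ (∃ c ∈ F', ¬ H1.FarC c) ∨ ∃ c ∈ F', ∀ d ∈ F, ∀ a,
      contc c ≠ {htc d} + (Multiset.replicate a 2 + {1} + {1})) :
    ∀ p ∈ g.arcs, ∀ w ∈ innA p, w ∉ g'.B := by
  obtain ⟨n, hn, hF, hI⟩ := h.innJ_n
  obtain ⟨c, hc, h0⟩ := J.has0 h.cases
  obtain ⟨s, a, hs, hc2⟩ := h.oneC c hc h0
  have hs2 : s = n + 2 := by
    have e := hF c hc
    unfold htc at e
    rw [hc2, Multiset.sup_add, Multiset.sup_singleton] at e
    have e2 : (Multiset.replicate a 2 : Multiset ℕ).sup ≤ 2 := by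
      apply Multiset.sup_le.2
      intro b hb
      rw [Multiset.eq_of_mem_replicate hb]
    rw [sup_eq_left.2 (by omega)] at e
    exact e
  subst hs2
  rcases Nat.lt_or_ge n 2 with h2 | h2
  · obtain rfl : n = 1 := by omega
    have hM : InnM k F g → ∀ p ∈ g.arcs, ∀ w ∈ innA p, w ∉ g'.B := by
      intro hM p hp w hw hw'
      have h3 := hM c hc 1 a h0 (le_refl 1) hc2 p hp w hw
      have h4 := InnJ.no_E1 h3 hk h' hw'
      obtain ⟨d', hd'⟩ : ∃ d', d' ∈ F' := by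
        obtain ⟨j, r, f, hj, hr, ht⟩ := h'
        obtain ⟨a', b', c', ha, hb', hc', k1, k2, k3, rfl, rfl⟩ := ht
        exact ⟨_, Or.inl rfl⟩
      have h5 := h4 d' hd'
      have h6 := hle c hc d' hd'
      rw [hF c hc] at h6
      omega
    rcases h.cases with h | h | h | h
    · exact hM h.innM
    · exact hM h.innM
    · exact h.inner_E3 hc hc2 hk h'
    · exact hM h.innM
  · have h4 : ∀ d ∈ F, 4 ≤ htc d := fun d hd => by rw [hF d hd]; omega
    rcases he with he | he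
    · have := he c hc
      rw [hF c hc] at this
      omega
    · exact h.inner_E h' hle h4 he

end Hole2

end Pool.OddHC
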